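import Pool.Agent.Lib.MP_e1b29e_al.Limit

set_option autoImplicit false

namespace Pool.Agent.Results.MP_e1b29e_al.MaxProductFails

open Pool.Agent.Lib.MP_e1b29e_al

/-- the maximum condition on subgroups: every non-empty set of subgroups has a maximal element -/
def MaxCond (G : Type) [Group G] : Prop :=
  ∀ 𝒮 : Set (Subgroup G), 𝒮.Nonempty → ∃ M ∈ 𝒮, ∀ H ∈ 𝒮, M ≤ H → H = M

theorem maxCond_of_fg {G : Type} [Group G] (h : ∀ H : Subgroup G, H.FG) : MaxCond G := by
  have hw : WellFoundedGT (Subgroup G) := by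
    rw [wellFoundedGT_iff_monotone_chain_condition]
    intro f
    obtain ⟨S, hS⟩ := h (⨆ n, f n)
    have hdir : Directed (· ≤ ·) (fun n => f n) := f.monotone.directed_le
    have hmem : ∀ x ∈ S, ∃ n, x ∈ f n := by
      intro x hx
      have : x ∈ ⨆ n, f n := by
        rw [← hS]
        exact Subgroup.subset_closure hx
      exact (Subgroup.mem_iSup_of_directed hdir).mp this
    choose! n hn using hmem
    refine ⟨S.sup n, fun m hm => le_antisymm (f.monotone hm) ?_⟩
    refine (le_iSup (fun n => f n) m).trans ?_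
    rw [← hS, Subgroup.closure_le]
    intro x hx
    exact f.monotone (Finset.le_sup (f := n) hx) (hn x hx)
  intro 𝒮 hne
  obtain ⟨M, hM, hmax⟩ := hw.wf.has_min 𝒮 hne
  refine ⟨M, hM, fun H hH hle => ?_⟩
  by_contra hne'
  exact hmax H hH (lt_of_le_of_ne hle (Ne.symm hne'))

theorem fg_of_maxCond {G : Type} [Group G] (h : MaxCond G) (H : Subgroup G) : H.FG := by
  obtain ⟨M, ⟨hM, hMH⟩, hmax⟩ := h {K | K.FG ∧ K ≤ H} ⟨⊥, Subgroup.FG.bot, bot_le⟩
  have hle : H ≤ M := by
    intro x hx
    have hfg : (M ⊔ Subgroup.closure {x}).FG :=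
      hM.sup ((Subgroup.fg_iff _).mpr ⟨{x}, rfl, Set.finite_singleton x⟩)
    have hxH : Subgroup.closure {x} ≤ H := by
      rw [Subgroup.closure_le]
      simpa using hx
    have := hmax _ ⟨hfg, sup_le hMH hxH⟩ le_sup_left
    rw [← this]
    exact (le_sup_right : Subgroup.closure {x} ≤ M ⊔ Subgroup.closure {x})
      (Subgroup.subset_closure rfl)
  rw [le_antisymm hle hMH]
  exact hM

/-- There is a group `G = A B`, where the subgroups `A` and `B` satisfy the maximum condition on
subgroups, such that `G` does not satisfy the maximum condition on subgroups. -/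
theorem result : ∃ (G : Type) (_ : Group G) (A B : Subgroup G),
    (∀ g : G, ∃ a ∈ A, ∃ b ∈ B, a * b = g) ∧ MaxCond A ∧ MaxCond B ∧ ¬ MaxCond G := by
  obtain ⟨G, _, A, B, h, hA, hB, H, hH⟩ := main
  have key : ∀ K : Subgroup G, (∀ H : Subgroup G, H ≤ K → H.FG) → MaxCond K := by
    intro K hK
    apply maxCond_of_fg
    intro H
    apply fg_map_injective K.subtype K.subtype_injective
    apply hK
    rintro _ ⟨x, _, rfl⟩
    exact x.2
  refine ⟨G, inferInstance, A, B, ?_, key A hA, key B hB, fun hmax => hH (fg_of_maxCond hmax H)⟩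
  intro g
  obtain ⟨a, ha, b, hb, e⟩ := h g
  exact ⟨a, ha, b, hb, e.symm⟩

end Pool.Agent.Results.MP_e1b29e_al.MaxProductFails
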